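import Mathlib
import Pool.Agent.Helper36.SPR.St2
import Pool.Agent.Helper43.SPR.M_CH

/-!
# Project SPR (MP_343216_nt): module CH2 (Chebyshev inequality)
-/

set_option autoImplicit false

namespace Pool.Agent.Helper43.SPR

open Finset Pool.Agent.Helper36.SPR

/-- pair estimate -/
lemma pair_le2 (T k p q : ℕ) (hyp : 2 ≤ p) (hpq : p < q)
    (h1p : |prb p T k - 1 / p| ≤ 1 / (p : ℝ) ^ 2) (h1q : |prb q T k - 1 / q| ≤ 1 / (q : ℝ) ^ 2)
    (h2 : prb (p * q) T k ≤ 1 / ((p : ℝ) * q) * (1 + 3 / p)) :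
    prb (p * q) T k - prb p T k * prb q T k ≤ 5 * ((1 / (p : ℝ) ^ 2) * (1 / q)) := by
  have hp0 : (2 : ℝ) ≤ p := by exact_mod_cast hyp
  have hq0 : (p : ℝ) < q := by exact_mod_cast hpq
  set a : ℝ := 1 / (p : ℝ) with ha
  set b : ℝ := 1 / (q : ℝ) with hb
  have hppos : (0 : ℝ) < p := by linarith
  have hqpos : (0 : ℝ) < q := by linarith
  have ha0 : 0 < a := by positivity
  have hb0 : 0 < b := by positivity
  have hab : b ≤ a := one_div_le_one_div_of_le hppos hq0.le
  have hay : a ≤ 1 / 2 := one_div_le_one_div_of_le (by norm_num) hp0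
  have ha2 : 1 / (p : ℝ) ^ 2 = a ^ 2 := by rw [ha]; field_simp
  have hb2 : 1 / (q : ℝ) ^ 2 = b ^ 2 := by rw [hb]; field_simp
  have hab2 : 1 / ((p : ℝ) * q) = a * b := by rw [ha, hb]; field_simp
  have h3 : 3 / (p : ℝ) = 3 * a := by rw [ha]; ring
  rw [ha2, abs_le] at h1p
  rw [hb2, abs_le] at h1q
  rw [hab2, h3] at h2
  rw [ha2]
  have e1 : a - a ^ 2 ≤ prb p T k := by linarith [h1p.1]
  have e2 : b - b ^ 2 ≤ prb q T k := by linarith [h1q.1]
  have f1 : 0 ≤ a - a ^ 2 := by nlinarith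
  have f2 : 0 ≤ b - b ^ 2 := by nlinarith
  have e3 : (a - a ^ 2) * (b - b ^ 2) ≤ prb p T k * prb q T k :=
    mul_le_mul e1 e2 f2 (f1.trans e1)
  have habp : 0 < a * b := mul_pos ha0 hb0
  have e4 : a * b * (1 - 2 * a) ≤ (a - a ^ 2) * (b - b ^ 2) := by
    have : (a - a ^ 2) * (b - b ^ 2) = a * b * (1 - a - b + a * b) := by ring
    rw [this]
    apply mul_le_mul_of_nonneg_left _ habp.le
    linarith
  have e6 : prb (p * q) T k ≤ a * b * (1 + 3 * a) := h2
  nlinarith

lemma sum_sq_le_one (P : Finset ℕ) (hP : ∀ p ∈ P, 2 ≤ p) :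
    ∑ p ∈ P, 1 / (p : ℝ) ^ 2 ≤ 1 := by
  have hsub : P ⊆ Ioc 1 (P.sup id + 1) := by
    intro p hp
    rw [Finset.mem_Ioc]
    have : p ≤ P.sup id := Finset.le_sup (f := id) hp
    have := hP p hp
    omega
  refine (Finset.sum_le_sum_of_subset_of_nonneg hsub fun i _ _ => by positivity).trans ?_
  have h := sum_Ioc_inv_sq_le_sub (α := ℝ) (k := 1) (n := P.sup id + 1) one_ne_zero (by omega)
  have h0 : (0 : ℝ) ≤ ((P.sup id + 1 : ℕ) : ℝ)⁻¹ := by positivity
  simp only [one_div]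
  refine h.trans ?_
  rw [Nat.cast_one, inv_one]
  linarith

theorem hCH2 : StCH2 := by
  intro T k R P hT hP h1 h2 hR
  set s : ℝ := ∑ p ∈ P, (1 : ℝ) / p with hs
  have hs4 : 4 ≤ s := by
    have : (0 : ℝ) ≤ R := Nat.cast_nonneg R
    linarith
  have hTR : (0 : ℝ) < T := by exact_mod_cast hT
  set N : ℝ := (T : ℝ) ^ k with hN
  have hN0 : 0 < N := by positivity
  obtain ⟨X, hXd⟩ : ∃ X : (Fin k → Fin T) → ℝ,
      ∀ v, X v = ∑ p ∈ P, if p ∣ nm v then (1 : ℝ) else 0 := ⟨_, fun v => rfl⟩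
  have hX : ∀ v : Fin k → Fin T,
      ((P.filter (fun p => 1 + ∑ i, (2 : ZMod p) ^ (v i : ℕ) = 0)).card : ℝ) = X v := by
    intro v
    rw [hXd, Finset.sum_boole]
    congr 2
    ext p
    simp [zero_iff]
  have hcard : ((Fintype.card (Fin k → Fin T) : ℕ) : ℝ) = N := by simp [hN]
  have hind : ∀ n : ℕ, (∑ v : Fin k → Fin T, if n ∣ nm v then (1 : ℝ) else 0) = N * prb n T k := by
    intro n
    rw [prb_eq, hN]
    field_simp
  set m : ℝ := ∑ p ∈ P, prb p T k with hm
  have hsum1 : ∑ v, X v = N * m := by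
    simp only [hXd]
    rw [Finset.sum_comm, hm, Finset.mul_sum]
    exact Finset.sum_congr rfl fun p _ => hind p
  have hsum2 : ∑ v, X v ^ 2
      = N * ∑ p ∈ P, ∑ q ∈ P, (if p = q then prb p T k else prb (p * q) T k) := by
    have e1 : ∀ v, X v ^ 2 = ∑ p ∈ P, ∑ q ∈ P,
        (if (if p = q then p else p * q) ∣ nm v then (1 : ℝ) else 0) := by
      intro v
      rw [sq, hXd, Finset.sum_mul_sum]
      refine Finset.sum_congr rfl fun p hp => Finset.sum_congr rfl fun q hq => ?_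
      by_cases hpq : p = q
      · subst hpq
        simp
      · rw [if_neg hpq]
        have hco : Nat.Coprime p q := (Nat.coprime_primes (hP p hp) (hP q hq)).2 hpq
        have : p * q ∣ nm v ↔ p ∣ nm v ∧ q ∣ nm v := by
          constructor
          · intro h
            exact ⟨(Dvd.intro _ rfl).trans h, (Dvd.intro_left _ rfl).trans h⟩
          · rintro ⟨a, b⟩
            exact hco.mul_dvd_of_dvd_of_dvd a b
        simp only [this]
        by_cases a : p ∣ nm v <;> by_cases b : q ∣ nm v <;> simp [a, b]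
    simp only [e1]
    rw [Finset.sum_comm, Finset.mul_sum]
    refine Finset.sum_congr rfl fun p hp => ?_
    rw [Finset.sum_comm, Finset.mul_sum]
    refine Finset.sum_congr rfl fun q hq => ?_
    rw [hind]
    by_cases hpq : p = q <;> simp [hpq]
  have hvar : ∑ v, (X v - m) ^ 2
      = N * ∑ p ∈ P, ∑ q ∈ P, ((if p = q then prb p T k else prb (p * q) T k)
        - prb p T k * prb q T k) := by
    have e1 : ∑ v, (X v - m) ^ 2 = ∑ v, X v ^ 2 - 2 * m * ∑ v, X v + N * m ^ 2 := by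
      have : ∀ v, (X v - m) ^ 2 = X v ^ 2 - 2 * m * X v + m ^ 2 := fun v => by ring
      simp only [this]
      rw [Finset.sum_add_distrib, Finset.sum_sub_distrib, ← Finset.mul_sum, Finset.sum_const,
        Finset.card_univ, nsmul_eq_mul, hcard]
    rw [e1, hsum1, hsum2]
    have e2 : ∑ p ∈ P, ∑ q ∈ P, ((if p = q then prb p T k else prb (p * q) T k)
        - prb p T k * prb q T k)
        = ∑ p ∈ P, ∑ q ∈ P, (if p = q then prb p T k else prb (p * q) T k) - m * m := by
      rw [hm, Finset.sum_mul_sum, ← Finset.sum_sub_distrib]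
      exact Finset.sum_congr rfl fun p _ => Finset.sum_sub_distrib _ _
    rw [e2]
    ring
  have hsq : ∑ p ∈ P, 1 / (p : ℝ) ^ 2 ≤ s / 2 := by
    rw [hs, Finset.sum_div]
    refine Finset.sum_le_sum fun p hp => ?_
    have hp2 : (2 : ℝ) ≤ p := by exact_mod_cast (hP p hp).two_le
    have hp0 : (0 : ℝ) < p := by linarith
    rw [div_div, pow_two]
    exact one_div_le_one_div_of_le (by positivity) (mul_le_mul_of_nonneg_left hp2 hp0.le)
  have hsq1 : ∑ p ∈ P, 1 / (p : ℝ) ^ 2 ≤ 1 := sum_sq_le_one P fun p hp => (hP p hp).two_le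
  have hms : |m - s| ≤ s / 2 := by
    rw [hm, hs, ← Finset.sum_sub_distrib]
    refine (Finset.abs_sum_le_sum_abs _ _).trans ?_
    refine (Finset.sum_le_sum fun p hp => h1 p hp).trans ?_
    exact hsq
  have hm1 : s / 2 ≤ m := by linarith [(abs_le.1 hms).1]
  have hm2 : m ≤ 3 * s / 2 := by linarith [(abs_le.1 hms).2]
  have hterm : ∀ p ∈ P, ∀ q ∈ P, ((if p = q then prb p T k else prb (p * q) T k)
        - prb p T k * prb q T k) ≤ (if p = q then prb p T k else 0)
          + (5 * ((1 / (p : ℝ) ^ 2) * (1 / q)) + 5 * ((1 / (p : ℝ)) * (1 / (q : ℝ) ^ 2))) := by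
    intro p hp q hq
    have hA : 0 ≤ 5 * ((1 / (p : ℝ) ^ 2) * (1 / q)) := by positivity
    have hB : 0 ≤ 5 * ((1 / (p : ℝ)) * (1 / (q : ℝ) ^ 2)) := by positivity
    by_cases hpq : p = q
    · subst hpq
      simp only [if_true]
      nlinarith [mul_self_nonneg (prb p T k)]
    · simp only [if_neg hpq]
      rcases lt_or_gt_of_ne hpq with h | h
      · have := pair_le2 T k p q (hP p hp).two_le h (h1 p hp) (h1 q hq) (h2 p hp q hq h)
        linarith
      · have := pair_le2 T k q p (hP q hq).two_le h (h1 q hq) (h1 p hp) (h2 q hq p hp h)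
        rw [Nat.mul_comm p q, mul_comm (prb p T k), mul_comm (1 / (p : ℝ))]
        linarith
  have hV : ∑ v, (X v - m) ^ 2 ≤ N * (12 * s) := by
    rw [hvar]
    apply mul_le_mul_of_nonneg_left _ hN0.le
    refine (Finset.sum_le_sum fun p hp => Finset.sum_le_sum fun q hq => hterm p hp q hq).trans ?_
    set s2 : ℝ := ∑ p ∈ P, 1 / (p : ℝ) ^ 2 with hs2
    have e1 : ∀ p ∈ P, ∑ q ∈ P, ((if p = q then prb p T k else 0)
          + (5 * ((1 / (p : ℝ) ^ 2) * (1 / q)) + 5 * ((1 / (p : ℝ)) * (1 / (q : ℝ) ^ 2))))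
          = prb p T k + (5 * ((1 / (p : ℝ) ^ 2) * s) + 5 * ((1 / (p : ℝ)) * s2)) := by
      intro p hp
      rw [Finset.sum_add_distrib, Finset.sum_ite_eq, if_pos hp, Finset.sum_add_distrib, hs, hs2,
        ← Finset.mul_sum, ← Finset.mul_sum, ← Finset.mul_sum, ← Finset.mul_sum]
    rw [Finset.sum_congr rfl e1, Finset.sum_add_distrib, Finset.sum_add_distrib,
      ← Finset.mul_sum, ← Finset.mul_sum, ← Finset.sum_mul, ← Finset.sum_mul,
      ← hs, ← hs2, ← hm]
    have hs0 : 0 ≤ s := by linarith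
    have : s2 * s ≤ 1 * s := mul_le_mul_of_nonneg_right hsq1 hs0
    linarith
  have hcheb : ((((univ : Finset (Fin k → Fin T)).filter (fun v =>
      (P.filter (fun p => 1 + ∑ i, (2 : ZMod p) ^ (v i : ℕ) = 0)).card ≤ R)).card : ℝ))
      * (s / 4) ^ 2 ≤ ∑ v, (X v - m) ^ 2 := by
    rw [← nsmul_eq_mul]
    refine le_trans ?_ (Finset.sum_le_sum_of_subset_of_nonneg
      (Finset.filter_subset (fun v : Fin k → Fin T =>
      (P.filter (fun p => 1 + ∑ i, (2 : ZMod p) ^ (v i : ℕ) = 0)).card ≤ R) univ)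
      (fun v _ _ => sq_nonneg _))
    apply Finset.card_nsmul_le_sum
    intro v hv
    rw [Finset.mem_filter] at hv
    have h3 : X v ≤ R := by
      rw [← hX v]
      exact_mod_cast hv.2
    have h4 : s / 4 ≤ m - X v := by linarith
    have h5 : 0 ≤ s / 4 := by linarith
    nlinarith
  have hs0 : 0 < s := by linarith
  set M : ℝ := ((((univ : Finset (Fin k → Fin T)).filter (fun v =>
      (P.filter (fun p => 1 + ∑ i, (2 : ZMod p) ^ (v i : ℕ) = 0)).card ≤ R)).card : ℝ)) with hM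
  have h6 : M * (s / 4) ^ 2 ≤ N * (12 * s) := hcheb.trans hV
  have h7 : N * (12 * s) = N * (192 / s) * (s / 4) ^ 2 := by
    field_simp
    ring
  rw [h7] at h6
  have h8 : M ≤ N * (192 / s) := le_of_mul_le_mul_right h6 (by positivity)
  refine h8.trans ?_
  rw [mul_comm]
  apply mul_le_mul_of_nonneg_right _ hN0.le
  exact div_le_div_of_nonneg_right (by norm_num) hs0.le

end Pool.Agent.Helper43.SPR
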